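import Pool.Agent.H70.Sg3

open Pool.Agent.H70.Sg in
theorem Pool.Agent.Results.MP_dc0135_an.NotPseudo.result :
    ∃ (G : Type) (_ : Group G) (_ : TopologicalSpace G) (_ : MeasurableSpace G)
      (μ : MeasureTheory.Measure G), IsTopologicalGroup G ∧ LocallyCompactSpace G ∧ T2Space G ∧
      SecondCountableTopology G ∧ BorelSpace G ∧ μ.IsHaarMeasure ∧ Folner μ ∧ BadSegal μ :=
  ⟨GG, inferInstance, inferInstance, inferInstance, mu, inferInstance, inferInstance, inferInstance,
    inferInstance, inferInstance, inferInstance, folner, bad⟩
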